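import Pool.Agent.H.MP_8387fc_lc.TJ.HullW

/-!
Functions of the Turing degrees whose hulls are closed under joins.

Reals are the elements of `2 ^ ω`, `Le` and `Eqv` are Turing reducibility and Turing equivalence, `jn x y` is the join
`x ⊕ y`, and `UM f` says that `f` is universally measurable. Let `f` be universally measurable, and Turing invariant above a
real `b`. Let `f` be weakly order preserving above `b`, with a universally measurable modulus `g`: `f x ≤_T f y` for all
`x, y ≥_T b` with `y ≥_T g x`. Order preserving functions (`g x = x`) and increasing functions (`x ≤_T f x`, `g = f`) are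
weakly order preserving. Assume that the hulls `{x | f x ≤_T f y}` are closed under joins: for `x₁, x₂, y` above `b`,

  `f x₁ ≤_T f y` and `f x₂ ≤_T f y` imply `f (x₁ ⊕ x₂) ≤_T f y`.

Then `f` is constant on a cone, or `x ≤_T f x ≡_T f (f x)` on a cone; in the second case `f x ≡_T x` for cofinally many `x`,
and for all `x` in a cone if the set `{x | f x ≤_T x}` contains or is disjoint from a cone (which follows from AD), or if
`f (x ⊕ y) ≤_T f x ⊕ f y` for all `x, y` above `b`. In particular, the join homomorphisms are constant or the identity on a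
cone. No determinacy is assumed.

Method. Let `f` be universally measurable. There is a real `c` such that every real `v` above `c` is the join of two reals
`u₁, u₂` above `b` with `f u₁ ≤_T v` and `f u₂ ≤_T v` (`low_join`). Apply this to `v = f x` (or to `v = x`, if
`f (x ⊕ y) ≤_T f x ⊕ f y`). A weakly order preserving function such that all fibres of `z ↦ f (b ⊕ z)` are null is increasing
on a cone: there is a perfect set on which it is injective and its modulus is low, and a real can be coded into values of `f`
on the perfect set. If some fibre is not null, then a zero-one law shows that `f` is bounded.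
-/

set_option autoImplicit false

namespace Pool.Agent.Results.MP_8387fc_lc.ClosedHulls

open MeasureTheory Pool.Agent.TJ

/-- `f` is Turing invariant above `b`. -/
def Invariant (f : Rl → Rl) (b : Rl) : Prop := ∀ x y, Le b x → Eqv x y → Eqv (f x) (f y)

/-- Above `b`, the value `f x` is computable from all values `f y` with `y ≥_T g x`. -/
def WeaklyPreserves (f g : Rl → Rl) (b : Rl) : Prop :=
  ∀ x y, Le b x → Le b y → Le (g x) y → Le (f x) (f y)

/-- `f (x ⊕ y) ≤_T f x ⊕ f y` above `b`. -/
def Subadditive (f : Rl → Rl) (b : Rl) : Prop :=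
  ∀ x y, Le b x → Le b y → Le (f (jn x y)) (jn (f x) (f y))

/-- `f` is constant on a cone. -/
def ConstantOnCone (f : Rl → Rl) : Prop := ∃ c d, ∀ x, Le c x → Eqv (f x) d

/-- `f` is the identity on a cone. -/
def IdentityOnCone (f : Rl → Rl) : Prop := ∃ c, ∀ x, Le c x → Eqv (f x) x

/-- The set `A` contains or is disjoint from a cone. -/
def Decided (A : Set Rl) : Prop := (∃ c, ∀ x, Le c x → x ∈ A) ∨ ∃ c, ∀ x, Le c x → x ∉ A

theorem result {f g : Rl → Rl} (hf : UM f) (hg : UM g) (b : Rl) (hTI : Invariant f b)
    (h : WeaklyPreserves f g b) (hC : ClosedHulls f b) :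
    ConstantOnCone f ∨
      (∃ c, ∀ x, Le c x → Le x (f x) ∧ Eqv (f (f x)) (f x)) ∧
        (∀ y, ∃ x, Le y x ∧ Eqv (f x) x) ∧
        (Subadditive f b ∨ Decided {x | Le (f x) x} → IdentityOnCone f) := by
  rcases partHW hf hg hTI h hC with h1 | ⟨c, hc⟩
  · exact Or.inl h1
  · right
    have h2 : ∀ y, ∃ x, Le y x ∧ Eqv (f x) x := by
      intro y
      obtain ⟨k1, k2⟩ := hc (jn y c) (jn_r y c)
      exact ⟨f (jn y c), (jn_l y c).trans k1, k2⟩
    refine ⟨⟨c, hc⟩, h2, ?_⟩
    have h3 : (∃ c', ∀ x, Le c' x → Le (f x) x) → IdentityOnCone f := by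
      rintro ⟨c', hc'⟩
      exact ⟨jn c c', fun x hx => ⟨hc' x ((jn_r _ _).trans hx), (hc x ((jn_l _ _).trans hx)).1⟩⟩
    rintro (hS | hd | ⟨c', hc'⟩)
    · exact h3 (sub_reg hf hTI hS)
    · exact h3 hd
    · obtain ⟨x, hx, hx'⟩ := h2 c'
      exact absurd hx'.1 (hc' x hx)

end Pool.Agent.Results.MP_8387fc_lc.ClosedHulls
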