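import Pool.Agent.H.MP_8387fc_lc.TJ.PartD

/-!
Values at joins cannot be decomposed.

Reals are the elements of `2 ^ ω`, `Le` and `Eqv` are Turing reducibility and Turing equivalence, `jn x y` is the join
`x ⊕ y`, `js x` is the join of a sequence of reals, `sj S x` the join of the reals `x i`, `i ∈ S`, and `UM g` says that `g` is
universally measurable.

Let `f` and `H` be arbitrary functions of the reals. Assume that for all `x, y` above some real `b` the value `f (x ⊕ y)` is
computable from `H (x ⊕ y) ⊕ g₁ x ⊕ g₂ y`, where `g₁` and `g₂` are universally measurable. Then `f x ≤_T H x ⊕ x` for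
cofinally many `x`, and for all `x` in a cone if the set of these `x` is Turing invariant, for instance if `f` and `H` are
Turing invariant. The first conclusion also holds for infinite joins: assume that the value of `f` at the join of the `x i`,
`i ∈ U`, is computable from the value of `H` at this join and the values of countably many universally measurable functions
`g m` at the joins over proper subsets `S m` of `U`. Then `f x ≤_T H x ⊕ x` for cofinally many `x`, and on a cone if the set of
these `x` contains or is disjoint from a cone. The outer reducibility may be replaced by every coarser reducibility, for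
instance arithmetical or hyperarithmetical reducibility or relative constructibility. No determinacy is assumed.

Under AD all functions are universally measurable. So a Turing invariant function `f` satisfies `f x ≤_T H x` on a cone, where
`H` is a Turing invariant function above the identity, if and only if `f (x ⊕ y) ≤_T H (x ⊕ y) ⊕ g₁ x ⊕ g₂ y` on a cone for
some functions `g₁` and `g₂`. For `H x = x` the function `f` is regressive on a cone, hence, by the theorem of Slaman and
Steel, constant or the identity on a cone.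

Method. Let `g₁, g₂` be universally measurable. There is a real `c` such that every real `v` above `c` is the join of two reals
`u₁, u₂` above `b` with `g₁ u₁ ≤_T v` and `g₂ u₂ ≤_T v` (`low_join2`): `u₁ = b ⊕ z` and `u₂ = b ⊕ (z + v)`, where `z` is
computable from `v` and both `z` and `z + v` (modulo 2) avoid a null set. For infinite joins, a real is hidden in the parity of
random reals.
-/

set_option autoImplicit false

namespace Pool.Agent.Results.MP_8387fc_lc.JoinDecompositions

open MeasureTheory Pool.Agent.TJ

/-- `f (x ⊕ y)` is reducible to `H (x ⊕ y) ⊕ g₁ x ⊕ g₂ y`, for `x, y` above `b`. -/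
def PairCondition (Q : Rl → Rl → Prop) (f H : Rl → Rl) (b : Rl) : Prop :=
  ∃ g₁ g₂ : Rl → Rl, UM g₁ ∧ UM g₂ ∧ ∀ x y, Le b x → Le b y →
    Q (f (jn x y)) (jn (H (jn x y)) (jn (g₁ x) (g₂ y)))

/-- The condition for infinite joins. -/
def JoinCondition (Q : Rl → Rl → Prop) (f H : Rl → Rl) (b : Rl) : Prop :=
  ∃ (U : Set ℕ) (S : ℕ → Set ℕ) (g : ℕ → Rl → Rl), (∀ m, S m ⊂ U) ∧ (∀ m, UM (g m)) ∧
    ∀ x : ℕ → Rl, (∀ i ∈ U, Le b (x i)) →
      Q (f (sj U x)) (jn (H (sj U x)) (js fun m => g m (sj (S m) x)))

/-- The set of the `x` for which `f x` is reducible to `H x ⊕ x`. -/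
def Good (Q : Rl → Rl → Prop) (f H : Rl → Rl) : Set Rl := {x | Q (f x) (jn (H x) x)}

/-- The set `A` contains or is disjoint from a cone. -/
def Decided (A : Set Rl) : Prop := (∃ c, ∀ x, Le c x → x ∈ A) ∨ ∃ c, ∀ x, Le c x → x ∉ A

theorem result (Q : Rl → Rl → Prop) (hQ : ∀ x y z, Q x y → Le y z → Q x z) (f H : Rl → Rl)
    (b : Rl) (h : PairCondition Q f H b ∨ JoinCondition Q f H b) :
    (∀ y, ∃ x, Le y x ∧ x ∈ Good Q f H) ∧
      ((PairCondition Q f H b ∧ ∀ x y, Le b x → Eqv x y → x ∈ Good Q f H → y ∈ Good Q f H) ∨
        Decided (Good Q f H) → ∃ c, ∀ x, Le c x → x ∈ Good Q f H) := by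
  have h1 : ∀ y, ∃ x, Le y x ∧ x ∈ Good Q f H := by
    intro y
    rcases h with ⟨g₁, g₂, hg₁, hg₂, h⟩ | ⟨U, S, g, hS, hg, h⟩
    · exact partC2 hQ hg₁ hg₂ b h y
    · obtain ⟨u, hu, -⟩ := Set.exists_of_ssubset (hS 0)
      obtain ⟨x, -, hx, hx'⟩ := partC hQ hg b hu (fun m => (hS m).subset)
        (fun m => Set.exists_of_ssubset (hS m)) h y
      exact ⟨sj U x, hx, hx'⟩
  refine ⟨h1, ?_⟩
  rintro (⟨⟨g₁, g₂, hg₁, hg₂, hP⟩, hI⟩ | hd | ⟨c, hc⟩)
  · exact partD hQ hg₁ hg₂ b hP hI
  · exact hd
  · obtain ⟨x, hx, hx'⟩ := h1 c
    exact absurd hx' (hc x hx)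

end Pool.Agent.Results.MP_8387fc_lc.JoinDecompositions
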