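import Pool.Agent.H.MP_8387fc_lc.TJ.PartB

/-!
Join homomorphisms of the Turing degrees are constant or the identity on a cone.

Reals are the elements of `2 ^ ω`, `Le` and `Eqv` are Turing reducibility and Turing equivalence, `jn x y` is the join
`x ⊕ y`, `UM f` says that `f` is universally measurable. Let `f` be a universally measurable function of the reals which, on
the cone above a real `b`, is Turing invariant and satisfies `f (x ⊕ y) ≡_T f x ⊕ f y`. Then `f` is constant up to Turing
equivalence on a cone, or `f x ≡_T x` on a cone. In particular, `f` is Turing equivalent on a cone to a uniformly Turing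
invariant function. No determinacy is assumed; under AD all functions are universally measurable, and the theorem answers the
question (Steel) for all Turing invariant functions which preserve binary joins.

Method. A universally measurable function is computable almost everywhere, for the fair coin measure, relative to some real.
Since every `y` is the sum modulo 2 of the random reals `z` and `z + y`, this and the theorem of Sacks show that a join
homomorphism is regressive on a cone; by a zero-one law it is constant on a cone if some value has positive measure.
Otherwise there is a perfect set, computable relative to a real `c`, on which `f` is injective and inverted by `c`; six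
values of `f` on it, relative to one further value, are used to code `c` into the values of `f`.
-/

set_option autoImplicit false

namespace Pool.Agent.Results.MP_8387fc_lc.JoinHomomorphisms

open MeasureTheory Pool.Agent.TJ Pool.Agent.H.MP_ad67df_lc

/-- `x ≥_T y` via `e`: the functional number `e` with the oracle `x` has the value `y`. The functional number `e` has
the value `v` at `i` if `Phi e σ i = some v` for some finite initial segment `σ` of the oracle. -/
def Via (e : ℕ) (x y : Rl) : Prop := ∀ i, ∃ t, Phi e (bpre x t) i = some (y i).toNat

/-- `g` is uniformly Turing invariant: if `x ≡_T y` via `(i, j)` then `g x ≡_T g y` via `u i j`. -/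
def UniformlyInvariant (g : Rl → Rl) : Prop :=
  ∃ u : ℕ → ℕ → ℕ × ℕ, ∀ x y i j, Via i x y → Via j y x →
    Via (u i j).1 (g x) (g y) ∧ Via (u i j).2 (g y) (g x)

theorem result {f : Rl → Rl} (hf : UM f) (b : Rl)
    (hTI : ∀ x y, Le b x → Eqv x y → Eqv (f x) (f y))
    (hJ : ∀ x y, Le b x → Le b y → Eqv (f (jn x y)) (jn (f x) (f y))) :
    ((∃ c d, ∀ x, Le c x → Eqv (f x) d) ∨ ∃ c, ∀ x, Le c x → Eqv (f x) x) ∧
      ∃ g, UniformlyInvariant g ∧ ∃ c, ∀ x, Le c x → Eqv (f x) (g x) := by
  have h := partB hf hTI hJ
  refine ⟨h, ?_⟩
  rcases h with ⟨c, d, h⟩ | ⟨c, h⟩
  · obtain ⟨e, he⟩ := exists_Phi_of_le (Le.refl d)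
    exact ⟨fun _ => d, ⟨fun _ _ => (e, e), fun _ _ _ _ _ _ => ⟨he, he⟩⟩, c, h⟩
  · exact ⟨fun x => x, ⟨fun i j => (i, j), fun _ _ _ _ h1 h2 => ⟨h1, h2⟩⟩, c, h⟩

end Pool.Agent.Results.MP_8387fc_lc.JoinHomomorphisms
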