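import Pool.Agent.H.MP_8387fc_lc.TJ.PartR

/-!
Order reflecting functions of the Turing degrees.

Reals are the elements of `2 ^ ω`, `Le` is Turing reducibility, and `UM f` says that `f` is universally measurable. Let `f` be
universally measurable, `H` an arbitrary function of the reals and `b` a real. Assume that for all `x, y` above `b`

  `f x ≤_T f y` implies `x ≤_T H y`,

and that `f` is increasing above `b` (`x ≤_T f x`) or order preserving above `b` (`x ≤_T y` implies `f x ≤_T f y`). Then
`x ≤_T f x ≤_T H x` on a cone. No determinacy is assumed. For `H x = x`: an order reflecting function which is increasing or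
order preserving is the identity, up to Turing equivalence, on a cone. In particular, every order embedding of a cone of the
Turing degrees into the Turing degrees (given by a universally measurable function of the reals) is the identity on a cone.
For increasing functions `f` the condition characterises `f x ≤_T H x` on a cone.

Method. Let `f` be universally measurable. There is a real `c` such that every real `v` above `c` is the join of two reals
`u₁, u₂` above `b` with `f u₁ ≤_T v` and `f u₂ ≤_T v` (`low_join`): `u₁ = b ⊕ z` and `u₂ = b ⊕ (z + v)`, where `z` is
computable from `v` and both `z` and `z + v` (modulo 2) avoid the null set of the `z` for which `f (b ⊕ z)` is not computable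
from `b ⊕ z ⊕ c₀`. Apply this to `v = f x`. An order preserving function with this property is increasing on a cone, since
its fibres are countable: there is a perfect set on which it is injective, and a real can be coded into values of `f` on the
perfect set.
-/

set_option autoImplicit false

namespace Pool.Agent.Results.MP_8387fc_lc.OrderReflecting

open MeasureTheory Pool.Agent.TJ

/-- Above `b`, `f x ≤_T f y` implies `x ≤_T H y`. -/
def Reflects (f H : Rl → Rl) (b : Rl) : Prop :=
  ∀ x y, Le b x → Le b y → Le (f x) (f y) → Le x (H y)

/-- `f` is increasing above `b`. -/
def Increasing (f : Rl → Rl) (b : Rl) : Prop := ∀ x, Le b x → Le x (f x)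

/-- `f` is order preserving above `b`. -/
def OrderPreserving (f : Rl → Rl) (b : Rl) : Prop := ∀ x y, Le b x → Le x y → Le (f x) (f y)

theorem result {f : Rl → Rl} (hf : UM f) (H : Rl → Rl) (b : Rl) (h : Reflects f H b)
    (h' : Increasing f b ∨ OrderPreserving f b) :
    ∃ c, ∀ x, Le c x → Le x (f x) ∧ Le (f x) (H x) :=
  partR hf b h h'

end Pool.Agent.Results.MP_8387fc_lc.OrderReflecting
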